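import Pool.Agent.Helper84.SPN.St

/-!
# Project SPN, module PRD: averaging over a product of two subgroups which is the whole group
-/

set_option autoImplicit false

namespace Pool.Agent.Helper16.SPN

open Pool.Agent.Helper84.SPN Pool.Agent.Helper75.MX Pool.Agent.Helper84.MXP

/-- an average over a subgroup keeps the sum -/
theorem sum_avK {G : Type} [Group G] [Fintype G] (K : Subgroup G) (f : G → ℝ) :
    ∑ g : G, avK K f g = ∑ g : G, f g := by
  classical
  have : Fintype K := Fintype.ofFinite K
  have hK : (Fintype.card K : ℝ) ≠ 0 := by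
    have : 0 < Fintype.card K := Fintype.card_pos
    positivity
  calc ∑ g : G, avK K f g
      = ∑ g : G, (1 / (Nat.card K : ℝ)) * ∑ x : K, f ((x : G)⁻¹ * g) :=
        Finset.sum_congr rfl (fun g _ => avK_apply K f g)
    _ = (1 / (Nat.card K : ℝ)) * ∑ x : K, ∑ g : G, f ((x : G)⁻¹ * g) := by
        rw [← Finset.mul_sum, Finset.sum_comm]
    _ = (1 / (Nat.card K : ℝ)) * ∑ _x : K, ∑ g : G, f g := by
        congr 1
        apply Finset.sum_congr rfl
        intro x _
        exact Equiv.sum_comp (Equiv.mulLeft ((x : G)⁻¹)) f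
    _ = ∑ g : G, f g := by
        rw [Finset.sum_const, Finset.card_univ, nsmul_eq_mul, Nat.card_eq_fintype_card,
          ← mul_assoc, one_div, inv_mul_cancel₀ hK, one_mul]

theorem hPRD : StPRD := by
  intro G _ _ A B a b hAB hA hB
  classical
  have : Fintype G := Fintype.ofFinite G
  set f : G → ℝ := avK A (avK B (dlt G)) with hf
  have h1 : Reach (b + a) (dlt G) f := (reach_avK hB (dlt G)).trans (reach_avK hA _)
  have hB1 : ∀ h ∈ B, ∀ g, avK B (dlt G) (g * h) = avK B (dlt G) g := by
    intro h hh g
    rw [avK_dlt, avK_dlt]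
    have : (g * h ∈ B) ↔ (g ∈ B) := Subgroup.mul_mem_cancel_right B hh
    simp only [this]
  have hc : ∀ g, f g = f 1 := by
    intro g
    obtain ⟨x, hx, y, hy, rfl⟩ := hAB g
    calc f (x * y) = f y := avK_left A _ hx y
      _ = f (1 * y) := by rw [one_mul]
      _ = f 1 := avK_right A (hB1 y hy) 1
  have hs : ∑ g : G, f g = 1 := by
    rw [hf, sum_avK, sum_avK]
    rw [Finset.sum_eq_single (1 : G)]
    · simp [dlt]
    · intro g _ hg
      simp [dlt, hg]
    · intro h
      exact absurd (Finset.mem_univ _) h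
  have hs2 : (Nat.card G : ℝ) * f 1 = 1 := by
    rw [← hs, Finset.sum_congr rfl (fun g _ => hc g), Finset.sum_const, Finset.card_univ,
      nsmul_eq_mul, Nat.card_eq_fintype_card]
  have hu : f = uni G := by
    funext g
    rw [hc g]
    unfold uni
    have h0 : (Nat.card G : ℝ) ≠ 0 := by
      intro h0
      rw [h0, zero_mul] at hs2
      exact zero_ne_one hs2
    field_simp
    linarith
  unfold Mix
  rw [← hu, add_comm a b]
  exact h1

end Pool.Agent.Helper16.SPN
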